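import Mathlib

set_option autoImplicit false

namespace Pool.Agent.Results.MP_57cfa6_lc.Incomplete

open CategoryTheory Limits MonoidalCategory CartesianMonoidalCategory

/-- A many-sorted algebraic signature. -/
structure Sig : Type 1 where
  Srt : Type
  Fn : Type
  dom : Fn → List Srt
  cod : Fn → Srt

/-- Variables of a given sort in a context (a list of sorts). -/
inductive Var {S : Type} : List S → S → Type
  | zero {Γ : List S} {A : S} : Var (A :: Γ) A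
  | succ {Γ : List S} {A B : S} : Var Γ B → Var (A :: Γ) B

/-- Terms in context. -/
inductive Tm (σ : Sig) (Γ : List σ.Srt) : σ.Srt → Type
  | var {A : σ.Srt} : Var Γ A → Tm σ Γ A
  | app (f : σ.Fn) (args : ∀ B, Var (σ.dom f) B → Tm σ Γ B) : Tm σ Γ (σ.cod f)

/-- Formulas in context. -/
inductive Fm (σ : Sig) : List σ.Srt → Type
  | top {Γ : List σ.Srt} : Fm σ Γ
  | bot {Γ : List σ.Srt} : Fm σ Γ
  | eq {Γ : List σ.Srt} {A : σ.Srt} : Tm σ Γ A → Tm σ Γ A → Fm σ Γ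
  | and {Γ : List σ.Srt} : Fm σ Γ → Fm σ Γ → Fm σ Γ
  | or {Γ : List σ.Srt} : Fm σ Γ → Fm σ Γ → Fm σ Γ
  | imp {Γ : List σ.Srt} : Fm σ Γ → Fm σ Γ → Fm σ Γ
  | all {Γ : List σ.Srt} (A : σ.Srt) : Fm σ (A :: Γ) → Fm σ Γ
  | ex {Γ : List σ.Srt} (A : σ.Srt) : Fm σ (A :: Γ) → Fm σ Γ

/-- Substitution of terms for all variables of a term. -/
def Tm.subst {σ : Sig} {Γ Δ : List σ.Srt} (θ : ∀ B, Var Γ B → Tm σ Δ B) :
    ∀ {A : σ.Srt}, Tm σ Γ A → Tm σ Δ A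
  | _, .var v => θ _ v
  | _, .app f args => .app f (fun B v => Tm.subst θ (args B v))

/-- The substitution that adds an unused variable. -/
def wkSub {σ : Sig} {Γ : List σ.Srt} (A : σ.Srt) : ∀ B, Var Γ B → Tm σ (A :: Γ) B :=
  fun _ v => .var (.succ v)

/-- A substitution moved under a binder. -/
def liftSub {σ : Sig} {Γ Δ : List σ.Srt} (A : σ.Srt) (θ : ∀ B, Var Γ B → Tm σ Δ B) :
    ∀ B, Var (A :: Γ) B → Tm σ (A :: Δ) B
  | _, .zero => .var .zero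
  | _, .succ v => (θ _ v).subst (wkSub A)

/-- The substitution of `t` for the last variable. -/
def instSub {σ : Sig} {Γ : List σ.Srt} {A : σ.Srt} (t : Tm σ Γ A) :
    ∀ B, Var (A :: Γ) B → Tm σ Γ B
  | _, .zero => t
  | _, .succ v => .var v

/-- Substitution in formulas. -/
def Fm.subst {σ : Sig} : ∀ {Γ Δ : List σ.Srt}, (∀ B, Var Γ B → Tm σ Δ B) → Fm σ Γ → Fm σ Δ
  | _, _, _, .top => .top
  | _, _, _, .bot => .bot
  | _, _, θ, .eq s t => .eq (s.subst θ) (t.subst θ)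
  | _, _, θ, .and φ ψ => .and (φ.subst θ) (ψ.subst θ)
  | _, _, θ, .or φ ψ => .or (φ.subst θ) (ψ.subst θ)
  | _, _, θ, .imp φ ψ => .imp (φ.subst θ) (ψ.subst θ)
  | _, _, θ, .all A φ => .all A (φ.subst (liftSub A θ))
  | _, _, θ, .ex A φ => .ex A (φ.subst (liftSub A θ))

/-- Derivable sequents in context of intuitionistic first-order logic with equality. -/
inductive Prf {σ : Sig} : {Γ : List σ.Srt} → Fm σ Γ → Fm σ Γ → Prop
  | refl {Γ : List σ.Srt} (φ : Fm σ Γ) : Prf φ φ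
  | cut {Γ : List σ.Srt} {φ ψ χ : Fm σ Γ} : Prf φ ψ → Prf ψ χ → Prf φ χ
  | subst {Γ Δ : List σ.Srt} (θ : ∀ B, Var Γ B → Tm σ Δ B) {φ ψ : Fm σ Γ} :
      Prf φ ψ → Prf (φ.subst θ) (ψ.subst θ)
  | topI {Γ : List σ.Srt} (φ : Fm σ Γ) : Prf φ .top
  | botE {Γ : List σ.Srt} (φ : Fm σ Γ) : Prf .bot φ
  | andE₁ {Γ : List σ.Srt} (φ ψ : Fm σ Γ) : Prf (.and φ ψ) φ
  | andE₂ {Γ : List σ.Srt} (φ ψ : Fm σ Γ) : Prf (.and φ ψ) ψ
  | andI {Γ : List σ.Srt} {φ ψ χ : Fm σ Γ} : Prf φ ψ → Prf φ χ → Prf φ (.and ψ χ)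
  | orI₁ {Γ : List σ.Srt} (φ ψ : Fm σ Γ) : Prf φ (.or φ ψ)
  | orI₂ {Γ : List σ.Srt} (φ ψ : Fm σ Γ) : Prf ψ (.or φ ψ)
  | orE {Γ : List σ.Srt} {φ ψ χ : Fm σ Γ} : Prf φ χ → Prf ψ χ → Prf (.or φ ψ) χ
  | impI {Γ : List σ.Srt} {φ ψ χ : Fm σ Γ} : Prf (.and φ ψ) χ → Prf φ (.imp ψ χ)
  | impE {Γ : List σ.Srt} {φ ψ χ : Fm σ Γ} : Prf φ (.imp ψ χ) → Prf (.and φ ψ) χ
  | allI {Γ : List σ.Srt} {A : σ.Srt} {φ : Fm σ Γ} {ψ : Fm σ (A :: Γ)} :
      Prf (φ.subst (wkSub A)) ψ → Prf φ (.all A ψ)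
  | allE {Γ : List σ.Srt} {A : σ.Srt} {φ : Fm σ Γ} {ψ : Fm σ (A :: Γ)} :
      Prf φ (.all A ψ) → Prf (φ.subst (wkSub A)) ψ
  | exE {Γ : List σ.Srt} {A : σ.Srt} {φ : Fm σ (A :: Γ)} {ψ : Fm σ Γ} :
      Prf φ (ψ.subst (wkSub A)) → Prf (.ex A φ) ψ
  | exI {Γ : List σ.Srt} {A : σ.Srt} {φ : Fm σ (A :: Γ)} {ψ : Fm σ Γ} :
      Prf (.ex A φ) ψ → Prf φ (ψ.subst (wkSub A))
  | eqI {Γ : List σ.Srt} {A : σ.Srt} (t : Tm σ Γ A) : Prf .top (.eq t t)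
  | eqE {Γ : List σ.Srt} {A : σ.Srt} (s t : Tm σ Γ A) (φ : Fm σ (A :: Γ)) :
      Prf (.and (.eq s t) (φ.subst (instSub s))) (φ.subst (instSub t))

/-- The product of the simplicial sets attached to a list of sorts. -/
noncomputable def ctx {S : Type} (X : S → SSet.{0}) : List S → SSet.{0}
  | [] => 𝟙_ SSet
  | A :: Γ => ctx X Γ ⊗ X A

/-- The projection given by a variable. -/
noncomputable def proj {S : Type} (X : S → SSet.{0}) :
    ∀ {Γ : List S} {A : S}, Var Γ A → (ctx X Γ ⟶ X A)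
  | _, _, .zero => snd _ _
  | _, _, .succ v => fst _ _ ≫ proj X v

/-- The map into a product with given components. -/
noncomputable def tuple {S : Type} (X : S → SSet.{0}) {Z : SSet.{0}} :
    ∀ Δ : List S, (∀ B, Var Δ B → (Z ⟶ X B)) → (Z ⟶ ctx X Δ)
  | [], _ => toUnit Z
  | A :: Δ, g => lift (tuple X Δ (fun B v => g B (.succ v))) (g A .zero)

/-- A structure in Kan complexes. -/
structure KanStr (σ : Sig) : Type 1 where
  obj : σ.Srt → SSet.{0}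
  kan : ∀ A, SSet.KanComplex (obj A)
  fn : ∀ f, ctx obj (σ.dom f) ⟶ obj (σ.cod f)

/-- The simplicial map given by a term. -/
noncomputable def KanStr.tm {σ : Sig} (M : KanStr σ) {Γ : List σ.Srt} :
    ∀ {A : σ.Srt}, Tm σ Γ A → (ctx M.obj Γ ⟶ M.obj A)
  | _, .var v => proj M.obj v
  | _, .app f args => tuple M.obj _ (fun B v => M.tm (args B v)) ≫ M.fn f

/-- The path space with its two endpoint maps. -/
noncomputable def pathMap (X : SSet.{0}) :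
    (ihom (SSet.stdSimplex.obj (SimplexCategory.mk 1))).obj X ⟶ X ⊗ X :=
  lift (SSet.ι₀ ≫ (β_ _ _).hom ≫ (ihom.ev (SSet.stdSimplex.obj (SimplexCategory.mk 1))).app X)
    (SSet.ι₁ ≫ (β_ _ _).hom ≫ (ihom.ev (SSet.stdSimplex.obj (SimplexCategory.mk 1))).app X)

/-- `Interp M φ E`: the object `E` of the slice over the context is the homotopical
interpretation of `φ` (it is determined up to isomorphism; exponentials and the right adjoint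
of pulling back are given by their universal properties). -/
def Interp {σ : Sig} (M : KanStr σ) : ∀ {Γ : List σ.Srt}, Fm σ Γ → Over (ctx M.obj Γ) → Prop
  | _, .top, E => Nonempty (E ≅ Over.mk (𝟙 _))
  | _, .bot, E => Nonempty (E ≅ Over.mk (initial.to _))
  | _, .eq s t, E =>
      Nonempty (E ≅ (Over.pullback (lift (M.tm s) (M.tm t))).obj (Over.mk (pathMap _)))
  | _, .and φ ψ, E => ∃ X Y, Interp M φ X ∧ Interp M ψ Y ∧ Nonempty (E ≅ X ⨯ Y)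
  | _, .or φ ψ, E => ∃ X Y, Interp M φ X ∧ Interp M ψ Y ∧ Nonempty (E ≅ X ⨿ Y)
  | _, .imp φ ψ, E => ∃ X Y, Interp M φ X ∧ Interp M ψ Y ∧
      Nonempty (((prod.functor.obj X).op ⋙ yoneda.obj Y).RepresentableBy E)
  | Γ, .all A φ, E => ∃ X, Interp M φ X ∧
      Nonempty (((Over.pullback (fst (ctx M.obj Γ) (M.obj A))).op ⋙ yoneda.obj X).RepresentableBy E)
  | Γ, .ex A φ, E => ∃ X, Interp M φ X ∧
      Nonempty (E ≅ (Over.map (fst (ctx M.obj Γ) (M.obj A))).obj X)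

/-- One sort and two constants. -/
def σ0 : Sig := ⟨Unit, Bool, fun _ => [], fun _ => ()⟩

def cst (b : Bool) : Tm σ0 [] () := Tm.app (σ := σ0) b (fun _ v => nomatch v)

def lem : Fm σ0 [] := .or (.eq (cst false) (cst true)) (.imp (.eq (cst false) (cst true)) .bot)

def val {Γ : List σ0.Srt} (ρ : ∀ B, Var Γ B → Bool) : ∀ {A : σ0.Srt}, Tm σ0 Γ A → Bool
  | _, .var v => ρ _ v
  | _, .app f _ => f

def ext {Γ : List σ0.Srt} {A : σ0.Srt} (ρ : ∀ B, Var Γ B → Bool) (d : Bool) :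
    ∀ B, Var (A :: Γ) B → Bool
  | _, .zero => d
  | _, .succ v => ρ _ v

def T : ∀ {Γ : List σ0.Srt}, Fm σ0 Γ → Prop
  | _, .top => True
  | _, .bot => False
  | _, .eq _ _ => True
  | _, .and φ ψ => T φ ∧ T ψ
  | _, .or φ ψ => T φ ∨ T ψ
  | _, .imp φ ψ => T φ → T ψ
  | _, .all _ φ => T φ
  | _, .ex _ φ => T φ

def R : ∀ {Γ : List σ0.Srt}, Fm σ0 Γ → (∀ B, Var Γ B → Bool) → Prop
  | _, .top, _ => True
  | _, .bot, _ => False
  | _, .eq s t, ρ => val ρ s = val ρ t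
  | _, .and φ ψ, ρ => R φ ρ ∧ R ψ ρ
  | _, .or φ ψ, ρ => R φ ρ ∨ R ψ ρ
  | _, .imp φ ψ, ρ => (R φ ρ → R ψ ρ) ∧ (T φ → T ψ)
  | _, .all _ φ, ρ => ∀ d, R φ (ext ρ d)
  | _, .ex _ φ, ρ => ∃ d, R φ (ext ρ d)

theorem R_T {Γ : List σ0.Srt} (φ : Fm σ0 Γ) : ∀ ρ, R φ ρ → T φ := by
  induction φ with
  | top => exact fun _ h => h
  | bot => exact fun _ h => h
  | eq s t => exact fun _ _ => trivial
  | and φ ψ h1 h2 => exact fun ρ h => ⟨h1 ρ h.1, h2 ρ h.2⟩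
  | or φ ψ h1 h2 => exact fun ρ h => h.imp (h1 ρ) (h2 ρ)
  | imp φ ψ _ _ => exact fun ρ h => h.2
  | all A φ h1 => exact fun ρ h => h1 _ (h true)
  | ex A φ h1 => exact fun ρ ⟨d, h⟩ => h1 _ h

theorem T_subst {Γ : List σ0.Srt} (φ : Fm σ0 Γ) :
    ∀ {Δ : List σ0.Srt} (θ : ∀ B, Var Γ B → Tm σ0 Δ B), T (φ.subst θ) ↔ T φ := by
  induction φ with
  | top => exact fun _ => Iff.rfl
  | bot => exact fun _ => Iff.rfl
  | eq s t => exact fun _ => Iff.rfl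
  | and φ ψ h1 h2 => exact fun θ => and_congr (h1 θ) (h2 θ)
  | or φ ψ h1 h2 => exact fun θ => or_congr (h1 θ) (h2 θ)
  | imp φ ψ h1 h2 => exact fun θ => imp_congr (h1 θ) (h2 θ)
  | all A φ h1 => exact fun θ => h1 _
  | ex A φ h1 => exact fun θ => h1 _

theorem val_subst {Γ Δ : List σ0.Srt} (θ : ∀ B, Var Γ B → Tm σ0 Δ B) (ρ : ∀ B, Var Δ B → Bool)
    {A : σ0.Srt} (t : Tm σ0 Γ A) : val ρ (t.subst θ) = val (fun B v => val ρ (θ B v)) t := by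
  cases t <;> rfl

theorem ext_lift {Γ Δ : List σ0.Srt} (A : σ0.Srt) (θ : ∀ B, Var Γ B → Tm σ0 Δ B)
    (ρ : ∀ B, Var Δ B → Bool) (d : Bool) :
    (fun B v => val (ext ρ d) (liftSub A θ B v)) = ext (fun B v => val ρ (θ B v)) d := by
  funext B v
  cases v with
  | zero => rfl
  | succ v => exact val_subst _ _ _

theorem R_subst {Γ : List σ0.Srt} (φ : Fm σ0 Γ) :
    ∀ {Δ : List σ0.Srt} (θ : ∀ B, Var Γ B → Tm σ0 Δ B) (ρ : ∀ B, Var Δ B → Bool),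
      R (φ.subst θ) ρ ↔ R φ (fun B v => val ρ (θ B v)) := by
  induction φ with
  | top => exact fun _ _ => Iff.rfl
  | bot => exact fun _ _ => Iff.rfl
  | eq s t =>
    intro Δ θ ρ
    change val ρ (s.subst θ) = val ρ (t.subst θ) ↔ _
    rw [val_subst, val_subst]
    rfl
  | and φ ψ h1 h2 => exact fun θ ρ => and_congr (h1 θ ρ) (h2 θ ρ)
  | or φ ψ h1 h2 => exact fun θ ρ => or_congr (h1 θ ρ) (h2 θ ρ)
  | imp φ ψ h1 h2 =>
    exact fun θ ρ => and_congr (imp_congr (h1 θ ρ) (h2 θ ρ))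
      (imp_congr (T_subst φ θ) (T_subst ψ θ))
  | all A φ h1 =>
    intro Δ θ ρ
    refine forall_congr' (fun d => (h1 _ _).trans ?_)
    rw [ext_lift]
  | ex A φ h1 =>
    intro Δ θ ρ
    refine exists_congr (fun d => (h1 _ _).trans ?_)
    rw [ext_lift]

theorem ext_eta {Γ : List σ0.Srt} {A : σ0.Srt} (ρ : ∀ B, Var (A :: Γ) B → Bool) :
    ext (fun B v => ρ B (.succ v)) (ρ A .zero) = ρ := by
  funext B v
  cases v <;> rfl

theorem sound {Γ : List σ0.Srt} {φ ψ : Fm σ0 Γ} (h : Prf φ ψ) :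
    (∀ ρ, R φ ρ → R ψ ρ) ∧ (T φ → T ψ) := by
  induction h with
  | refl φ => exact ⟨fun _ h => h, fun h => h⟩
  | cut _ _ h1 h2 => exact ⟨fun ρ h => h2.1 ρ (h1.1 ρ h), fun h => h2.2 (h1.2 h)⟩
  | subst θ _ h1 =>
    exact ⟨fun ρ h => (R_subst _ θ ρ).2 (h1.1 _ ((R_subst _ θ ρ).1 h)),
      fun h => (T_subst _ θ).2 (h1.2 ((T_subst _ θ).1 h))⟩
  | topI φ => exact ⟨fun _ _ => trivial, fun _ => trivial⟩
  | botE φ => exact ⟨fun _ h => h.elim, fun h => h.elim⟩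
  | andE₁ φ ψ => exact ⟨fun _ h => h.1, fun h => h.1⟩
  | andE₂ φ ψ => exact ⟨fun _ h => h.2, fun h => h.2⟩
  | andI _ _ h1 h2 => exact ⟨fun ρ h => ⟨h1.1 ρ h, h2.1 ρ h⟩, fun h => ⟨h1.2 h, h2.2 h⟩⟩
  | orI₁ φ ψ => exact ⟨fun _ h => Or.inl h, fun h => Or.inl h⟩
  | orI₂ φ ψ => exact ⟨fun _ h => Or.inr h, fun h => Or.inr h⟩
  | orE _ _ h1 h2 => exact ⟨fun ρ h => h.elim (h1.1 ρ) (h2.1 ρ), fun h => h.elim h1.2 h2.2⟩
  | impI _ h1 =>
    exact ⟨fun ρ h => ⟨fun k => h1.1 ρ ⟨h, k⟩, fun k => h1.2 ⟨R_T _ ρ h, k⟩⟩,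
      fun h k => h1.2 ⟨h, k⟩⟩
  | impE _ h1 => exact ⟨fun ρ h => (h1.1 ρ h.1).1 h.2, fun h => h1.2 h.1 h.2⟩
  | allI _ h1 =>
    exact ⟨fun ρ h d => h1.1 _ ((R_subst _ _ _).2 h), fun h => h1.2 ((T_subst _ _).2 h)⟩
  | allE _ h1 =>
    refine ⟨fun ρ h => ?_, fun h => h1.2 ((T_subst _ _).1 h)⟩
    have := h1.1 _ ((R_subst _ _ _).1 h) (ρ _ .zero)
    exact ext_eta ρ ▸ this
  | exE _ h1 =>
    exact ⟨fun ρ ⟨d, h⟩ => (R_subst _ _ _).1 (h1.1 _ h), fun h => (T_subst _ _).1 (h1.2 h)⟩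
  | exI _ h1 =>
    refine ⟨fun ρ h => (R_subst _ _ _).2 (h1.1 _ ⟨ρ _ .zero, ?_⟩),
      fun h => (T_subst _ _).2 (h1.2 h)⟩
    exact (ext_eta ρ).symm ▸ h
  | eqI t => exact ⟨fun _ _ => rfl, fun _ => trivial⟩
  | eqE s t φ =>
    refine ⟨fun ρ h => ?_, fun h => (T_subst _ _).2 ((T_subst _ _).1 h.2)⟩
    have e : (fun B v => val ρ (instSub s B v)) = fun B v => val ρ (instSub t B v) := by
      funext B v
      cases v with
      | zero => exact h.1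
      | succ v => rfl
    rw [R_subst, ← e, ← R_subst]
    exact h.2

theorem not_prf : ¬ Prf .top lem := by
  intro h
  rcases (sound h).1 (fun _ v => nomatch v) trivial with h | h
  · cases h
  · exact h.2 trivial

theorem init_empty : ¬ (⊥_ SSet.{0}).Nonempty := by
  intro h
  have f : (⊥_ SSet.{0}) ⟶ (Functor.const _).obj Empty := initial.to _
  obtain ⟨x⟩ := SSet.nonempty_of_hom f
  exact x.elim

noncomputable def toOver {Z X : Over (𝟙_ SSet.{0})} (f : Z.left ⟶ X.left) : Z ⟶ X :=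
  Over.homMk f (Subsingleton.elim _ _)

noncomputable abbrev pt : Over (𝟙_ SSet.{0}) := Over.mk (toUnit (SSet.stdSimplex.obj (SimplexCategory.mk 0)))

instance : pt.left.Nonempty := inferInstanceAs (SSet.Nonempty (SSet.stdSimplex.obj (SimplexCategory.mk 0)))

theorem hom_pt {X : Over (𝟙_ SSet.{0})} (h : X.left.Nonempty) : Nonempty (pt ⟶ X) :=
  ⟨toOver (SSet.yonedaEquiv.symm h.some)⟩

theorem hom_of_empty {Z X : Over (𝟙_ SSet.{0})} (h : ¬ Z.left.Nonempty) : Nonempty (Z ⟶ X) :=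
  ⟨toOver ((SSet.isInitialOfNotNonempty h).to _)⟩

theorem hom_sub {Z X : Over (𝟙_ SSet.{0})} (h : ¬ Z.left.Nonempty) (f g : Z ⟶ X) : f = g :=
  Over.OverMorphism.ext ((SSet.isInitialOfNotNonempty h).hom_ext _ _)

theorem empty_of_hom {Z X : Over (𝟙_ SSet.{0})} (f : Z ⟶ X) (h : ¬ X.left.Nonempty) :
    ¬ Z.left.Nonempty := fun _ => h (SSet.nonempty_of_hom f.left)

theorem exists_neg (X B : Over (𝟙_ SSet.{0})) (hB : ¬ B.left.Nonempty) :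
    ∃ E, Nonempty (((prod.functor.obj X).op ⋙ yoneda.obj B).RepresentableBy E) := by
  have sub : ∀ Z : Over (𝟙_ SSet.{0}), Subsingleton (Z ⟶ B) := fun Z =>
    ⟨fun f g => hom_sub (empty_of_hom f hB) f g⟩
  by_cases h : X.left.Nonempty
  · refine ⟨B, ⟨⟨fun {Z} => ?_, fun f g => (sub _).elim _ _⟩⟩⟩
    have := sub Z
    have := sub (X ⨯ Z)
    refine equivOfSubsingletonOfSubsingleton (β := (X ⨯ Z ⟶ B)) (fun g => prod.snd ≫ g)
      (fun g => (hom_of_empty (fun hZ => ?_)).some)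
    obtain ⟨a⟩ := hom_pt h
    obtain ⟨b⟩ := hom_pt hZ
    exact empty_of_hom (prod.lift a b ≫ g) hB inferInstance
  · refine ⟨Over.mk (𝟙 _), ⟨⟨fun {Z} => ?_, fun f g => (sub _).elim _ _⟩⟩⟩
    have := sub (X ⨯ Z)
    have : Subsingleton (Z ⟶ Over.mk (𝟙 (𝟙_ SSet.{0}))) :=
      ⟨fun f g => Over.mkIdTerminal.hom_ext f g⟩
    exact equivOfSubsingletonOfSubsingleton (β := (X ⨯ Z ⟶ B))
      (fun _ => (hom_of_empty (empty_of_hom prod.fst h)).some)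
      (fun _ => Over.mkIdTerminal.from Z)

theorem result : ∃ (σ : Sig) (φ : Fm σ []), ¬ Prf .top φ ∧
    ∀ M : KanStr σ, (∃ E, Interp M φ E) ∧ ∀ E, Interp M φ E → E.left.Nonempty := by
  refine ⟨σ0, lem, not_prf, fun M => ⟨?_, ?_⟩⟩
  · obtain ⟨E, hE⟩ := exists_neg
      ((Over.pullback (lift (M.tm (cst false)) (M.tm (cst true)))).obj (Over.mk (pathMap _)))
      (Over.mk (initial.to _)) init_empty
    exact ⟨_, _, E, ⟨Iso.refl _⟩, ⟨_, _, ⟨Iso.refl _⟩, ⟨Iso.refl _⟩, hE⟩, ⟨Iso.refl _⟩⟩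
  · rintro Y ⟨X, E, ⟨i1⟩, ⟨X', B, ⟨i2⟩, -, ⟨r⟩⟩, ⟨i⟩⟩
    by_cases h : X.left.Nonempty
    · exact SSet.nonempty_of_hom (coprod.inl ≫ i.inv).left
    · have h1 : ¬ X'.left.Nonempty := empty_of_hom (i2.hom ≫ i1.inv) h
      obtain ⟨g⟩ := hom_of_empty (X := B) (empty_of_hom (prod.fst : X' ⨯ pt ⟶ X') h1)
      exact SSet.nonempty_of_hom (r.homEquiv.symm g ≫ coprod.inr ≫ i.inv : pt ⟶ Y).left

end Pool.Agent.Results.MP_57cfa6_lc.Incomplete
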